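import Mathlib

/-!
# Project M4 (MP_1b8d20, S03975), block II: the local part of the FAIL lemma (`cos² θ ≤ 1/5`)

Real lemmas. `a = -α_(k+1) > 0`, `c = π - b_(k+1) ∈ (0, π/2)`, `τ = λ - i θ`. LENS at `k`: `sinh λ sinh (a + λ) < sin θ sin (c + θ)`.
FAIL at `k+1`: `cosh a sin c sinh λ cos θ ≤ sinh a cos c cosh λ sin θ`.
-/

set_option autoImplicit false

open Real

namespace Pool.Agent.M4

/-- (STAR): lens and fail. -/
theorem STAR {l t a c : ℝ} (hl : 0 < l) (ht : 0 < t) (ht2 : t < π / 2) (hc : 0 < c) (hc2 : c < π / 2)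
    (lens : sinh l * sinh (a + l) < sin t * sin (c + t))
    (fail : cosh a * sin c * sinh l * cos t ≤ sinh a * cos c * cosh l * sin t) :
    sinh l ^ 2 * cosh a < sin t ^ 2 * cos c := by
  have hs : 0 < sinh l := sinh_pos_iff.mpr hl
  have hst : 0 < sin t := sin_pos_of_pos_of_lt_pi ht (by linarith [pi_pos])
  have hsc : 0 < sin c := sin_pos_of_pos_of_lt_pi hc (by linarith [pi_pos])
  have hct : 0 < cos t := cos_pos_of_mem_Ioo ⟨by linarith, ht2⟩
  have hcc : 0 < cos c := cos_pos_of_mem_Ioo ⟨by linarith, hc2⟩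
  have hca : 0 < cosh a := cosh_pos a
  rw [sinh_add, sin_add] at lens
  by_contra hcon
  rw [not_lt] at hcon
  have h1 : sinh l * (sinh a * cosh l) < sin t * (sin c * cos t) := by nlinarith
  have hQ : 0 < sin t * cos c := by positivity
  have hW : 0 < sin c * cos t := by positivity
  have h2 : sinh l * (sinh a * cosh l) * (sin t * cos c) < sin t * (sin c * cos t) * (sin t * cos c) :=
    mul_lt_mul_of_pos_right h1 hQ
  have h3 : sinh l * (cosh a * sin c * sinh l * cos t) ≤ sinh l * (sinh a * cos c * cosh l * sin t) :=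
    mul_le_mul_of_nonneg_left fail hs.le
  have h4 : (sin c * cos t) * (sin t ^ 2 * cos c) ≤ (sin c * cos t) * (sinh l ^ 2 * cosh a) :=
    mul_le_mul_of_nonneg_left hcon hW.le
  nlinarith

theorem LOC_cosh_le (l : ℝ) : cosh l ≤ 1 + sinh l ^ 2 / 2 := by
  have h1 := cosh_sq l
  have h2 := cosh_pos l
  nlinarith [sq_nonneg (sinh l ^ 2), sq_nonneg (sinh l)]

/-- the polynomial inequality of case 1. -/
theorem LOC_poly1 {r C : ℝ} (hC2 : C ≤ 1 / 5) (hr : 0 ≤ r) :
    (4 + r - C) * r * (1 - r) ≤ 169 / 100 * (1 - C) ^ 2 := by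
  have h1 : (38 / 10 + r) * r * (1 - r) ≤ 10816 / 10000 := by
    nlinarith [sq_nonneg (r - 53 / 100), mul_nonneg hr (sq_nonneg (r - 53 / 100))]
  have h2 : r * (1 - r) ≤ 1 / 4 := by nlinarith [sq_nonneg (r - 1 / 2)]
  have h3 : 0 ≤ 1 / 5 - C := by linarith
  nlinarith [mul_nonneg h3 h3, mul_nonneg h3 (show (0:ℝ) ≤ 1 / 4 - r * (1 - r) by linarith)]

/-- LOC, case `a ≤ λ/2`: the FAIL vertex itself is small. -/
theorem LOC1 {l t a c : ℝ} (hl : 0 < l) (ht : 0 < t) (ht2 : t < π / 2) (ha : 0 < a) (hc : 0 < c)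
    (hc2 : c < π / 2) (h5 : 5 * cos t ^ 2 ≤ 1)
    (lens : sinh l * sinh (a + l) < sin t * sin (c + t))
    (fail : cosh a * sin c * sinh l * cos t ≤ sinh a * cos c * cosh l * sin t)
    (hal : a ≤ l / 2) :
    4 * (sinh l ^ 2 + cos t ^ 2) * (sinh a ^ 2 + sin c ^ 2) <
      169 / 100 * (sinh l ^ 2 + sin t ^ 2) := by
  have star := STAR hl ht ht2 hc hc2 lens fail
  have hs : 0 < sinh l := sinh_pos_iff.mpr hl
  have hst : 0 < sin t := sin_pos_of_pos_of_lt_pi ht (by linarith [pi_pos])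
  have hct : 0 < cos t := cos_pos_of_mem_Ioo ⟨by linarith, ht2⟩
  have hcc : 0 < cos c := cos_pos_of_mem_Ioo ⟨by linarith, hc2⟩
  have hca : 1 ≤ cosh a := one_le_cosh a
  have eq1 : sin t ^ 2 = 1 - cos t ^ 2 := by rw [sin_sq]
  have eq2 : sinh a ^ 2 + sin c ^ 2 = cosh a ^ 2 - cos c ^ 2 := by
    rw [sinh_sq, sin_sq]; ring
  -- cosh a ^ 2 ≤ 1 + p / 4
  have hcosh2 : cosh a ^ 2 ≤ 1 + sinh l ^ 2 / 4 := by
    have h1 : cosh (2 * a) ≤ cosh l := by
      rw [cosh_le_cosh, abs_of_pos (by linarith), abs_of_pos hl]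
      linarith
    have h2 := cosh_two_mul a
    have h3 := cosh_sq a
    have h4 := LOC_cosh_le l
    nlinarith
  set p := sinh l ^ 2 with hp
  set C := cos t ^ 2 with hC
  have hp0 : 0 < p := by positivity
  have hC0 : 0 < C := by positivity
  rw [eq1] at star ⊢
  rw [eq2]
  have hq0 : 0 < 1 - C := by linarith
  have hcos1 : cos c ≤ 1 := cos_le_one c
  have hpq : p < 1 - C := by nlinarith
  -- (1-C)^2 (cosh²a - cos²c) < cosh²a ((1-C)² - p²)
  have h5' : (1 - C) ^ 2 * (cosh a ^ 2 - cos c ^ 2) < cosh a ^ 2 * ((1 - C) ^ 2 - p ^ 2) := by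
    have : (p * cosh a) ^ 2 < ((1 - C) * cos c) ^ 2 := by
      apply pow_lt_pow_left₀ star (by positivity) (by norm_num)
    nlinarith
  have h6 : cosh a ^ 2 * ((1 - C) ^ 2 - p ^ 2) ≤ (1 + p / 4) * ((1 - C) ^ 2 - p ^ 2) := by
    apply mul_le_mul_of_nonneg_right hcosh2
    nlinarith
  have hpoly := LOC_poly1 (r := p + C) (C := C) (by linarith) (by linarith)
  have hr0 : 0 < p + C := by linarith
  have hS0 : 0 < p + (1 - C) := by linarith
  -- multiply everything
  have h7 : (1 - C) ^ 2 * (4 * (p + C) * (cosh a ^ 2 - cos c ^ 2)) <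
      (1 - C) ^ 2 * (169 / 100 * (p + (1 - C))) := by
    calc (1 - C) ^ 2 * (4 * (p + C) * (cosh a ^ 2 - cos c ^ 2))
        = 4 * (p + C) * ((1 - C) ^ 2 * (cosh a ^ 2 - cos c ^ 2)) := by ring
      _ < 4 * (p + C) * (cosh a ^ 2 * ((1 - C) ^ 2 - p ^ 2)) := by
          apply mul_lt_mul_of_pos_left h5' (by linarith)
      _ ≤ 4 * (p + C) * ((1 + p / 4) * ((1 - C) ^ 2 - p ^ 2)) := by
          apply mul_le_mul_of_nonneg_left h6 (by linarith)
      _ = ((4 + (p + C) - C) * (p + C) * (1 - (p + C))) * (p + (1 - C)) := by ring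
      _ ≤ (169 / 100 * (1 - C) ^ 2) * (p + (1 - C)) :=
          mul_le_mul_of_nonneg_right hpoly hS0.le
      _ = (1 - C) ^ 2 * (169 / 100 * (p + (1 - C))) := by ring
  exact lt_of_mul_lt_mul_left h7 (by positivity)

/-- the polynomial inequality of case 2, first subcase. -/
theorem LOC_poly2 {p C : ℝ} (hC : 0 < C) (hC2 : C ≤ 1 / 5) (hp : 37 / 100 < p)
    (hk : 0 < 1 - C / 2 - p) :
    4 * (p + C) * ((1 - C / 2 - p) ^ 2 / (5069 / 10000) + p / 4 + (1 - C)) <
        338 / 100 * (p + (1 - C)) := by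
  have hq1 : (1 - C / 2 - p) ^ 2 / (5069 / 10000) ≤ 1243 / 1000 * (1 - C / 2 - p) := by
    rw [div_le_iff₀ (by norm_num)]
    nlinarith
  have h1 : 4 * (p + C) * ((1 - C / 2 - p) ^ 2 / (5069 / 10000) + p / 4 + (1 - C)) ≤
      4 * (p + C) * (1243 / 1000 * (1 - C / 2 - p) + p / 4 + (1 - C)) :=
    mul_le_mul_of_nonneg_left (by linarith) (by linarith)
  refine lt_of_le_of_lt h1 ?_
  have he : 0 ≤ 1 / 5 - C := by linarith
  have hd : 0 ≤ 1 - p := by linarith
  nlinarith [mul_nonneg he hd, sq_nonneg (p - 44 / 100), sq_nonneg (1 / 5 - C)]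

/-- the polynomial inequality of case 2, second subcase. -/
theorem LOC_poly3 {p C : ℝ} (hC : 0 < C) (hC2 : C ≤ 1 / 5) (hp : 37 / 100 < p)
    (hk : 0 < 1 - C / 2 - 2 * p) :
    4 * (p + C) * ((1 - C / 2 - p) ^ 2 / (5069 / 10000) +
        (1 - C / 2 - 2 * p) ^ 2 / (37 / 100) + (1 - C)) < 338 / 100 * (p + (1 - C)) := by
  have hq1 : (1 - C / 2 - p) ^ 2 / (5069 / 10000) ≤ 1243 / 1000 * (1 - C / 2 - p) := by
    rw [div_le_iff₀ (by norm_num)]
    nlinarith
  have hq2 : (1 - C / 2 - 2 * p) ^ 2 / (37 / 100) ≤ 703 / 1000 * (1 - C / 2 - 2 * p) := by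
    rw [div_le_iff₀ (by norm_num)]
    nlinarith
  have h1 : 4 * (p + C) * ((1 - C / 2 - p) ^ 2 / (5069 / 10000) +
        (1 - C / 2 - 2 * p) ^ 2 / (37 / 100) + (1 - C)) ≤
      4 * (p + C) * (1243 / 1000 * (1 - C / 2 - p) + 703 / 1000 * (1 - C / 2 - 2 * p) + (1 - C)) :=
    mul_le_mul_of_nonneg_left (by linarith) (by linarith)
  refine lt_of_le_of_lt h1 ?_
  have he : 0 ≤ 1 / 5 - C := by linarith
  have hd : 0 ≤ p - 37 / 100 := by linarith
  nlinarith [mul_nonneg hC.le hd, mul_nonneg he hd, sq_nonneg (p - 37 / 100), sq_nonneg (1 / 5 - C), mul_nonneg he hk.le]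

/-- LOC, case `a > λ/2`: one of the FAIL vertex and its successor is small. `hZ` is the zone inequality of the
waist triple. -/
theorem LOC2 {l t a c : ℝ} (hl : 0 < l) (ht : 0 < t) (ht2 : t < π / 2) (hc : 0 < c)
    (hc2 : c < π / 2) (h5 : 5 * cos t ^ 2 ≤ 1)
    (lens : sinh l * sinh (a + l) < sin t * sin (c + t))
    (fail : cosh a * sin c * sinh l * cos t ≤ sinh a * cos c * cosh l * sin t)
    (hal : l / 2 < a)
    (hZ : 169 / 100 * sin t ^ 2 ≤ 2 * (sinh l ^ 2 + cos t ^ 2) * cosh l) :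
    4 * (sinh l ^ 2 + cos t ^ 2) * (sinh a ^ 2 + sin c ^ 2) +
      4 * (sinh l ^ 2 + cos t ^ 2) * (sinh (a - l) ^ 2 + sin (c - t) ^ 2) <
      338 / 100 * (sinh l ^ 2 + sin t ^ 2) := by
  have star := STAR hl ht ht2 hc hc2 lens fail
  have ha : 0 < a := by linarith
  have hs : 0 < sinh l := sinh_pos_iff.mpr hl
  have hsa : 0 < sinh a := sinh_pos_iff.mpr ha
  have hst : 0 < sin t := sin_pos_of_pos_of_lt_pi ht (by linarith [pi_pos])
  have hct : 0 < cos t := cos_pos_of_mem_Ioo ⟨by linarith, ht2⟩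
  have hcc : 0 < cos c := cos_pos_of_mem_Ioo ⟨by linarith, hc2⟩
  have hca : 1 ≤ cosh a := one_le_cosh a
  have hcl : 1 ≤ cosh l := one_le_cosh l
  have eq1 : sin t ^ 2 = 1 - cos t ^ 2 := by rw [sin_sq]
  have hcosh := LOC_cosh_le l
  have hx2 : cosh l ^ 2 = sinh l ^ 2 + 1 := cosh_sq l
  -- sin t ≤ 1 - C/2
  have hsint : sin t ≤ 1 - cos t ^ 2 / 2 := by
    have : sin t ^ 2 ≤ (1 - cos t ^ 2 / 2) ^ 2 := by
      rw [eq1]; nlinarith [sq_nonneg (cos t ^ 2)]
    exact le_of_sq_le_sq this (by nlinarith)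
  -- the value of p
  have hp37 : 37 / 100 < sinh l ^ 2 := by
    by_contra hcon
    rw [not_lt] at hcon
    rw [eq1] at hZ
    have hC0 : 0 ≤ cos t ^ 2 := by positivity
    have hp0 : 0 ≤ sinh l ^ 2 := by positivity
    have h1 : (sinh l ^ 2 + cos t ^ 2) * cosh l ≤ (37 / 100 + cos t ^ 2) * (1 + 37 / 200) := by
      apply mul_le_mul (by linarith) (by linarith) (by linarith) (by linarith)
    nlinarith
  -- c < t
  have hct' : c < t := by
    by_contra hcon
    rw [not_lt] at hcon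
    have h1 : cos c ≤ cos t := cos_le_cos_of_nonneg_of_le_pi ht.le (by linarith [pi_pos]) hcon
    have h2 : sinh l ^ 2 < sin t ^ 2 * cos t := by
      have h3 : sinh l ^ 2 * 1 ≤ sinh l ^ 2 * cosh a := by gcongr
      have h4 : sin t ^ 2 * cos c ≤ sin t ^ 2 * cos t := by gcongr
      linarith
    rw [eq1] at h2
    have h5' : cos t ≤ 9 / 20 := by nlinarith
    have h6 : (1 - cos t ^ 2) * cos t ≤ 36 / 100 := by
      nlinarith [sq_nonneg (cos t - 9 / 20), mul_nonneg hct.le (sq_nonneg (cos t - 9 / 20))]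
    linarith
  -- the trigonometric part
  have htrig : sin c ^ 2 + sin (c - t) ^ 2 ≤ 1 - cos t ^ 2 := by
    have h1 : sin c ^ 2 + sin (c - t) ^ 2 = 1 - cos (2 * c - t) * cos t := by
      have e1 : cos (2 * c - t) * cos t = (cos (2 * c) + cos (2 * (c - t))) / 2 := by
        have := cos_add (2 * c - t) t
        have h' := cos_sub (2 * c - t) t
        have e2 : 2 * c - t + t = 2 * c := by ring
        have e3 : 2 * c - t - t = 2 * (c - t) := by ring
        rw [e2] at this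
        rw [e3] at h'
        linarith
      rw [e1, cos_two_mul, cos_two_mul, sin_sq, sin_sq]
      ring
    have h2 : cos t ≤ cos (2 * c - t) := by
      rw [← cos_abs (2 * c - t)]
      apply cos_le_cos_of_nonneg_of_le_pi (abs_nonneg _) (by linarith [pi_pos])
      rw [abs_le]
      constructor <;> linarith
    rw [h1]
    nlinarith
  -- bound for sinh a
  have hlens2 : sinh l * sinh (a + l) < 1 - cos t ^ 2 / 2 := by
    have h1 : sin t * sin (c + t) ≤ sin t * 1 := by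
      apply mul_le_mul_of_nonneg_left (sin_le_one _) hst.le
    linarith
  rw [sinh_add] at hlens2
  have hpa : sinh l ^ 2 * 1 ≤ sinh l ^ 2 * cosh a := mul_le_mul_of_nonneg_left hca (sq_nonneg _)
  have e9 : sinh l * (sinh a * cosh l + cosh a * sinh l) =
      sinh l * cosh l * sinh a + sinh l ^ 2 * cosh a := by ring
  rw [e9] at hlens2
  have hsa1 : sinh l * cosh l * sinh a < 1 - cos t ^ 2 / 2 - sinh l ^ 2 := by linarith
  have hsub : sinh (a - l) = sinh a * cosh l - cosh a * sinh l := sinh_sub a l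
  -- squares
  have hsq1 : sinh l ^ 2 * (1 + sinh l ^ 2) * sinh a ^ 2 < (1 - cos t ^ 2 / 2 - sinh l ^ 2) ^ 2 := by
    have h1 : (sinh l * cosh l * sinh a) ^ 2 < (1 - cos t ^ 2 / 2 - sinh l ^ 2) ^ 2 :=
      pow_lt_pow_left₀ hsa1 (by positivity) (by norm_num)
    calc sinh l ^ 2 * (1 + sinh l ^ 2) * sinh a ^ 2 = (sinh l * cosh l * sinh a) ^ 2 := by
          rw [mul_pow, mul_pow, hx2]; ring
      _ < _ := h1
  have hpos : 0 < 1 - cos t ^ 2 / 2 - sinh l ^ 2 := lt_of_le_of_lt (by positivity) hsa1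
  set p := sinh l ^ 2 with hp
  set C := cos t ^ 2 with hC
  have hC0 : 0 < C := by positivity
  have hC5 : C ≤ 1 / 5 := by linarith
  rw [eq1]
  have hu : sinh a ^ 2 ≤ (1 - C / 2 - p) ^ 2 / (5069 / 10000) := by
    rw [le_div_iff₀ (by norm_num)]
    have h1 : 5069 / 10000 ≤ p * (1 + p) := by nlinarith
    nlinarith [sq_nonneg (sinh a), mul_le_mul_of_nonneg_right h1 (sq_nonneg (sinh a))]
  rcases le_or_gt a l with hcase | hcase
  · -- a ≤ l
    have hv : sinh (a - l) ^ 2 ≤ p / 4 := by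
      have h1 : cosh (2 * (a - l)) ≤ cosh l := by
        rw [cosh_le_cosh, abs_of_pos hl, abs_le]
        constructor <;> linarith
      have h2 := cosh_two_mul (a - l)
      have h3 := cosh_sq (a - l)
      nlinarith
    have hT : sinh a ^ 2 + sin c ^ 2 + (sinh (a - l) ^ 2 + sin (c - t) ^ 2) ≤
        (1 - C / 2 - p) ^ 2 / (5069 / 10000) + p / 4 + (1 - C) := by linarith
    have hfin := LOC_poly2 hC0 hC5 hp37 hpos
    have hTm := mul_le_mul_of_nonneg_left hT (show (0:ℝ) ≤ 4 * (p + C) by nlinarith)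
    nlinarith
  · -- a > l
    have hw : 0 < sinh (a - l) := sinh_pos_iff.mpr (by linarith)
    have hw2 : sinh l * sinh (a - l) < 1 - C / 2 - 2 * p := by
      rw [hsub]
      have e10 : sinh l * (sinh a * cosh l - cosh a * sinh l) =
          sinh l * cosh l * sinh a - p * cosh a := by rw [hp]; ring
      rw [e10]
      linarith
    have hw3 : p * sinh (a - l) ^ 2 < (1 - C / 2 - 2 * p) ^ 2 := by
      have h1 : (sinh l * sinh (a - l)) ^ 2 < (1 - C / 2 - 2 * p) ^ 2 :=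
        pow_lt_pow_left₀ hw2 (by positivity) (by norm_num)
      rw [mul_pow] at h1
      exact h1
    have hpos2 : 0 < 1 - C / 2 - 2 * p := lt_of_le_of_lt (by positivity) hw2
    have hv : sinh (a - l) ^ 2 ≤ (1 - C / 2 - 2 * p) ^ 2 / (37 / 100) := by
      rw [le_div_iff₀ (by norm_num)]
      nlinarith [sq_nonneg (sinh (a - l))]
    have hT : sinh a ^ 2 + sin c ^ 2 + (sinh (a - l) ^ 2 + sin (c - t) ^ 2) ≤
        (1 - C / 2 - p) ^ 2 / (5069 / 10000) + (1 - C / 2 - 2 * p) ^ 2 / (37 / 100) + (1 - C) := by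
      linarith
    have hfin := LOC_poly3 hC0 hC5 hp37 hpos2
    have hTm := mul_le_mul_of_nonneg_left hT (show (0:ℝ) ≤ 4 * (p + C) by nlinarith)
    nlinarith

end Pool.Agent.M4
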